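import Pool.Agent.AreaTri.Hard

/-!
Min-max area triangulation of planar point sets is NP-hard (Q1).
-/

namespace Pool.Agent.Results.MP_f9630a_lc.MinMaxAreaNPHard

open Pool.Agent.AreaTri

/-- The decision version of min-max area triangulation is NP-hard. -/
theorem result : ∀ L ∈ NPC.NP, NPC.Reduces L MinMaxArea :=
  fun _ hL => reduces_minMax hL

end Pool.Agent.Results.MP_f9630a_lc.MinMaxAreaNPHard
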